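import Pool.Agent.W300.FT.Stm

/-! FT-COV: every walk is a chain of some copy. -/

set_option autoImplicit false

namespace Pool.Agent.W513.FT

open MeasureTheory ProbabilityTheory Filter Pool.Agent.W300.FT

instance coin_prob : IsProbabilityMeasure coin := by
  refine ⟨?_⟩
  unfold coin
  simp [ENNReal.inv_two_add_inv_two]

theorem coin_singleton (b : Bool) : coin {b} = 1 / 2 := by
  unfold coin
  cases b <;> simp

/-- cylinder events over disjoint finite sets -/
theorem cyl {E : Type} (S : ℕ → Finset E) (t : E → Bool) (s0 : ℕ) (hc : ∀ i, (S i).card = s0)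
    (hd : ∀ i j, i ≠ j → Disjoint (S i) (S j)) :
    ∀ᵐ ω ∂(PC E), ∃ i, ∀ e ∈ S i, ω e = t e := by
  classical
  let D : ℕ → Set (E → Bool) := fun i => Set.pi (S i : Set E) (fun e => {t e})
  have hm : ∀ i, MeasurableSet (D i) := fun i =>
    MeasurableSet.pi (S i).countable_toSet (fun e _ => measurableSet_singleton _)
  have hprob : IsProbabilityMeasure (PC E) := by
    unfold PC
    infer_instance
  have hpi : ∀ A : Finset E, PC E (Set.pi (A : Set E) (fun e => {t e})) = (1 / 2) ^ A.card := by
    intro A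
    unfold PC
    rw [Measure.infinitePi_pi _ (fun e _ => measurableSet_singleton _)]
    simp only [coin_singleton, Finset.prod_const]
  have hind : iIndepSet D (PC E) := by
    rw [iIndepSet_iff_meas_biInter hm]
    intro s
    have h1 : (⋂ i ∈ s, D i) = Set.pi ((s.biUnion S : Finset E) : Set E) (fun e => {t e}) := by
      ext ω
      simp only [Set.mem_iInter, D, Set.mem_pi, Finset.mem_coe, Finset.mem_biUnion]
      constructor
      · rintro h e ⟨i, hi, he⟩
        exact h i hi e he
      · intro h i hi e he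
        exact h e ⟨i, hi, he⟩
    have h2 : (s.biUnion S).card = ∑ i ∈ s, (S i).card :=
      Finset.card_biUnion (fun i _ j _ hij => hd i j hij)
    rw [h1, hpi, h2, ← Finset.prod_pow_eq_pow_sum]
    exact Finset.prod_congr rfl (fun i _ => (hpi (S i)).symm)
  have hsum : ∑' i, PC E (D i) = ⊤ := by
    have h1 : ∀ i, PC E (D i) = (1 / 2 : ENNReal) ^ s0 := fun i => by
      rw [hpi (S i), hc i]
    simp only [h1]
    exact ENNReal.tsum_const_eq_top_of_ne_zero (by simp)
  have hls := measure_limsup_eq_one hm hind hsum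
  have hae : ∀ᵐ ω ∂(PC E), ω ∈ limsup D atTop := by
    have := (mem_ae_iff_prob_eq_one (μ := PC E) (MeasurableSet.measurableSet_limsup hm)).mpr hls
    exact this
  filter_upwards [hae] with ω hω
  rw [mem_limsup_iff_frequently_mem] at hω
  obtain ⟨i, hi⟩ := hω.exists
  exact ⟨i, fun e he => hi e he⟩

theorem cov (hm : S_MEAS) : S_COV := by
  classical
  intro V G hV h3 n γ hγ
  have hfin : ∀ v, (G.neighborSet v).Finite := fun v => by
    apply Set.finite_of_ncard_ne_zero
    rw [h3 v]
    norm_num
  let N : ℕ → Finset V := fun j => (hfin (γ j)).toFinset ∪ (hfin (γ (j + 1))).toFinset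
  have hN : ∀ j u, u ∈ N j ↔ (G.Adj (γ j) u ∨ G.Adj (γ (j + 1)) u) := by
    intro j u
    simp only [N, Finset.mem_union, Set.Finite.mem_toFinset, SimpleGraph.mem_neighborSet]
  let S' : Finset (V × ℕ) := (Finset.range (n + 2)).biUnion (fun j => (N j).image (fun u => (u, j)))
  let f : ℕ → (V × ℕ) → V × K := fun i p => (p.1, ((n, i), p.2, 0))
  have hf : ∀ i, Function.Injective (f i) := by
    intro i p q h
    simp only [f, Prod.mk.injEq] at h
    exact Prod.ext h.1 h.2.2.1
  let S : ℕ → Finset (V × K) := fun i => S'.image (f i)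
  have hc : ∀ i, (S i).card = S'.card := fun i => Finset.card_image_of_injective _ (hf i)
  have hd : ∀ i j, i ≠ j → Disjoint (S i) (S j) := by
    intro i j hij
    rw [Finset.disjoint_left]
    intro e he he'
    obtain ⟨p, _, rfl⟩ := Finset.mem_image.mp he
    obtain ⟨q, _, hq⟩ := Finset.mem_image.mp he'
    simp only [f, Prod.mk.injEq] at hq
    exact hij hq.2.1.2.symm
  let t : V × K → Bool := fun e => decide (e.1 = γ e.2.2.1 ∨ e.1 = γ (e.2.2.1 + 1))
  have hcyl := cyl S t S'.card hc hd
  have hms : MeasurableSet {x : V → K → Bool | ∃ c' : ℕ, Mx G x (n, c') γ} := by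
    have h1 : {x : V → K → Bool | ∃ c' : ℕ, Mx G x (n, c') γ} =
        ⋃ c' : ℕ, {x | Mx G x (n, c') γ} := by
      ext x
      simp
    rw [h1]
    refine MeasurableSet.iUnion (fun c' => ?_)
    have hco : ∀ (v : V) (k : K), MeasurableSet {x : V → K → Bool | x v k = true} := by
      intro v k
      have : Measurable (fun x : V → K → Bool => x v k) :=
        (measurable_pi_apply k).comp (measurable_pi_apply v)
      exact this (measurableSet_singleton true)
    have h2 : {x : V → K → Bool | Mx G x (n, c') γ} = ⋂ j : ℕ, ⋂ (_ : j < n + 2),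
        ({x : V → K → Bool | G.Adj (γ j) (γ (j + 1))} ∩ ({x | x (γ j) ((n, c'), j, 0) = true} ∩
          ({x | x (γ (j + 1)) ((n, c'), j, 0) = true} ∩ ({x | x (γ j) ((n, c'), j, 1) = true} ∩
            {x | x (γ (j + 1)) ((n, c'), j, 1) = true})))) := by
      ext x
      simp only [Set.mem_ofPred_eq, Set.mem_iInter, Set.mem_inter_iff]
      rfl
    rw [h2]
    refine MeasurableSet.iInter (fun j => MeasurableSet.iInter (fun _ => ?_))
    exact (MeasurableSet.const _).inter ((hco _ _).inter ((hco _ _).inter ((hco _ _).inter (hco _ _))))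
  have hPsi : Measurable (Psi G) := (hm V G Set.univ hV).1
  unfold muX
  have hae := (ae_map_iff (μ := PC (V × K)) hPsi.aemeasurable hms).mpr ?_
  · exact hae
  filter_upwards [hcyl] with ω hω
  obtain ⟨i, hi⟩ := hω
  refine ⟨i, ?_⟩
  intro j hj
  have hj' : j < n + 2 := hj
  have hadj := hγ j hj'
  have hval : ∀ u, (G.Adj (γ j) u ∨ G.Adj (γ (j + 1)) u) →
      ω (u, ((n, i), j, 0)) = decide (u = γ j ∨ u = γ (j + 1)) := by
    intro u hu
    have hmem : (u, (((n, i), j, 0) : K)) ∈ S i := by
      refine Finset.mem_image.mpr ⟨(u, j), ?_, rfl⟩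
      refine Finset.mem_biUnion.mpr ⟨j, Finset.mem_range.mpr hj', ?_⟩
      exact Finset.mem_image.mpr ⟨u, (hN j u).mpr hu, rfl⟩
    exact hi _ hmem
  have ha : ω (γ j, ((n, i), j, 0)) = true := by
    rw [hval (γ j) (Or.inr hadj.symm)]
    simp
  have hb : ω (γ (j + 1), ((n, i), j, 0)) = true := by
    rw [hval (γ (j + 1)) (Or.inl hadj)]
    simp
  have hea : et G ω (n, i) j (γ j) := by
    refine ⟨γ (j + 1), ⟨hadj, hb⟩, ?_⟩
    rintro u ⟨hu1, hu2⟩
    rw [hval u (Or.inl hu1)] at hu2
    rcases of_decide_eq_true hu2 with h | h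
    · rw [h] at hu1
      exact absurd hu1 (G.loopless.irrefl _)
    · exact h
  have heb : et G ω (n, i) j (γ (j + 1)) := by
    refine ⟨γ j, ⟨hadj.symm, ha⟩, ?_⟩
    rintro u ⟨hu1, hu2⟩
    rw [hval u (Or.inr hu1)] at hu2
    rcases of_decide_eq_true hu2 with h | h
    · exact h
    · rw [h] at hu1
      exact absurd hu1 (G.loopless.irrefl _)
  refine ⟨hadj, ?_, ?_, ?_, ?_⟩
  · unfold Psi
    simp only [if_true]
    exact ha
  · unfold Psi
    simp only [if_true]
    exact hb
  · unfold Psi
    simp only [one_ne_zero, if_false, if_true]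
    exact decide_eq_true hea
  · unfold Psi
    simp only [one_ne_zero, if_false, if_true]
    exact decide_eq_true heb

end Pool.Agent.W513.FT
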